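import Mathlib

/-!
# The operator `[x_{n+1}, x_{n+2}] E` is not injective on the lower central series quotients

Over `ℂ`, let `A m` be the free associative algebra on `m` generators, `lcs A k` its lower central
series `L_k` (with `L_1 = A`, `L_{k+1} = [A, L_k]`), `B k m = L_k / L_{k+1}`, and let `delta n` be the
derivation of `A (n+2)` with `x_i ↦ [x_{n+1}, x_{n+2}] x_i`, inducing `D n k` on `B k (n+2)`.

We show that for `k = 4`, `n = 2` and multidegree `(3,2)` the map `D` is not injective: the class of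
`[x₁, [x₁, x₂]²]` is nonzero in `B_4` and is sent to `0`.
-/

namespace Pool.Agent.Results.MP_540755_al.NotInjective

set_option linter.unusedSectionVars false

/-- The commutator. -/
def br {R : Type*} [Ring R] (x y : R) : R := x * y - y * x

/-- The anticommutator. -/
def jd {R : Type*} [Ring R] (x y : R) : R := x * y + y * x

/-- The lower central series of an associative algebra regarded as a Lie algebra, numbered so that
`lcs R 1 = R` and `lcs R (k+1)` is the span of the commutators `[a, l]` with `l` in `lcs R k`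
(for `k ≥ 1`); the value at `0` is a convention. -/
def lcs (R : Type*) [Ring R] [Algebra ℂ R] : ℕ → Submodule ℂ R
  | 0 => ⊤
  | 1 => ⊤
  | (k + 2) => Submodule.span ℂ {z | ∃ a : R, ∃ l ∈ lcs R (k + 1), z = br a l}

section General

variable {R : Type*} [Ring R] [Algebra ℂ R]

theorem br_mem {k : ℕ} (hk : 1 ≤ k) (a : R) {l : R} (hl : l ∈ lcs R k) :
    br a l ∈ lcs R (k + 1) := by
  obtain ⟨j, rfl⟩ : ∃ j, k = j + 1 := ⟨k - 1, by omega⟩
  exact Submodule.subset_span ⟨a, l, hl, rfl⟩

theorem lcs_succ_le (k : ℕ) : lcs R (k + 1) ≤ lcs R k := by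
  induction k with
  | zero => exact le_top
  | succ k ih =>
    rcases k with _ | k
    · exact le_top
    · change Submodule.span ℂ _ ≤ Submodule.span ℂ _
      apply Submodule.span_mono
      rintro z ⟨a, l, hl, rfl⟩
      exact ⟨a, l, ih hl, rfl⟩

theorem br_neg_symm (x y : R) : br x y = - br y x := by
  simp only [br]; abel

theorem br_mem' {k : ℕ} (hk : 1 ≤ k) (a : R) {l : R} (hl : l ∈ lcs R k) :
    br l a ∈ lcs R (k + 1) := by
  rw [br_neg_symm]
  exact Submodule.neg_mem _ (br_mem hk a hl)

theorem br_add_right (x y z : R) : br x (y + z) = br x y + br x z := by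
  simp only [br]; noncomm_ring

theorem br_smul_right (c : ℂ) (x y : R) : br x (c • y) = c • br x y := by
  simp only [br, mul_smul_comm, smul_mul_assoc, smul_sub]

theorem jd_add_right (x y z : R) : jd x (y + z) = jd x y + jd x z := by
  simp only [jd]; noncomm_ring

theorem jd_smul_right (c : ℂ) (x y : R) : jd x (c • y) = c • jd x y := by
  simp only [jd, mul_smul_comm, smul_mul_assoc, smul_add]

theorem one_mem (x : R) : x ∈ lcs R 1 := Submodule.mem_top

theorem two_mem (x y : R) : br x y ∈ lcs R 2 := br_mem le_rfl x (one_mem y)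

/-- `[[s,t],l]` lies in `L_{k+2}` when `l` lies in `L_k`. -/
theorem br2_mem {k : ℕ} (hk : 1 ≤ k) (s t : R) {l : R} (hl : l ∈ lcs R k) :
    br (br s t) l ∈ lcs R (k + 2) := by
  have h : br (br s t) l = br s (br t l) - br t (br s l) := by
    simp only [br]; noncomm_ring
  rw [h]
  exact Submodule.sub_mem _ (br_mem (by omega) s (br_mem hk t hl))
    (br_mem (by omega) t (br_mem hk s hl))

theorem half_mem {p : Submodule ℂ R} {x : R} (h : x + x ∈ p) : x ∈ p := by
  have h2 : x = (2⁻¹ : ℂ) • (x + x) := by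
    rw [← two_smul ℂ x, smul_smul, inv_mul_cancel₀ (two_ne_zero), one_smul]
  rw [h2]
  exact Submodule.smul_mem _ _ h

theorem third_mem {p : Submodule ℂ R} {x : R} (h : 3 * x ∈ p) : x ∈ p := by
  have h2 : x = (3⁻¹ : ℂ) • (3 * x) := by
    have : (3 : R) * x = (3 : ℂ) • x := by
      rw [Algebra.smul_def, map_ofNat]
    rw [this, smul_smul, inv_mul_cancel₀ (three_ne_zero), one_smul]
  rw [h2]
  exact Submodule.smul_mem _ _ h

theorem K_id (s u p q r : R) :
    3 * br s (jd u (br p (br q r))) =
      - br p (br q (br (jd r u) s)) + br p (br r (br (jd q u) s)) - br (jd p s) (br u (br q r))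
      - br q (br (jd p r) (br s u)) - br (jd q s) (br r (br p u)) + br (jd q u) (br r (br p s))
      + br r (br (jd p q) (br s u)) + br (jd r s) (br q (br p u)) - br (jd r u) (br q (br p s))
      + br s (br (jd p q) (br r u)) - br s (br (jd p r) (br q u)) + br s (br (jd p u) (br q r))
      + br (jd s u) (br p (br q r)) - br u (br (jd p q) (br r s)) + br u (br (jd p r) (br q s)) := by
  simp only [br, jd]
  noncomm_ring

theorem four_mem (p q r s : R) : br p (br q (br r s)) ∈ lcs R 4 :=
  br_mem (by norm_num) _ (br_mem (by norm_num) _ (two_mem r s))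

theorem K_mem (s u p q r : R) : br s (jd u (br p (br q r))) ∈ lcs R 4 := by
  apply third_mem
  rw [K_id]
  have h := @four_mem R _ _
  refine Submodule.add_mem _ (Submodule.sub_mem _ (Submodule.add_mem _ (Submodule.add_mem _
    (Submodule.sub_mem _ (Submodule.add_mem _ (Submodule.sub_mem _ (Submodule.add_mem _
    (Submodule.add_mem _ (Submodule.add_mem _ (Submodule.sub_mem _ (Submodule.sub_mem _
    (Submodule.sub_mem _ (Submodule.add_mem _ (Submodule.neg_mem _ ?_) ?_) ?_) ?_) ?_) ?_) ?_) ?_)
    ?_) ?_) ?_) ?_) ?_) ?_) ?_ <;> exact h _ _ _ _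

/-- The key lemma: `[A, u ∘ L_3] ⊆ L_4`. -/
theorem key {l : R} (hl : l ∈ lcs R 3) (s u : R) : br s (jd u l) ∈ lcs R 4 := by
  change l ∈ Submodule.span ℂ {z | ∃ a : R, ∃ l ∈ lcs R 2, z = br a l} at hl
  induction hl using Submodule.span_induction with
  | mem x hx =>
    obtain ⟨p, l2, hl2, rfl⟩ := hx
    change l2 ∈ Submodule.span ℂ {z | ∃ a : R, ∃ l ∈ lcs R 1, z = br a l} at hl2
    induction hl2 using Submodule.span_induction with
    | mem y hy =>
      obtain ⟨q, r, -, rfl⟩ := hy
      exact K_mem s u p q r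
    | zero =>
      have : br s (jd u (br p (0 : R))) = 0 := by simp [br, jd]
      rw [this]; exact Submodule.zero_mem _
    | add y z _ _ hy hz =>
      rw [br_add_right, jd_add_right, br_add_right]
      exact Submodule.add_mem _ hy hz
    | smul c y _ hy =>
      rw [br_smul_right, jd_smul_right, br_smul_right]
      exact Submodule.smul_mem _ _ hy
  | zero =>
    have : br s (jd u (0 : R)) = 0 := by simp [br, jd]
    rw [this]; exact Submodule.zero_mem _
  | add y z _ _ hy hz =>
    rw [jd_add_right, br_add_right]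
    exact Submodule.add_mem _ hy hz
  | smul c y _ hy =>
    rw [jd_smul_right, br_smul_right]
    exact Submodule.smul_mem _ _ hy

/-- Elements `m` with `[A, A ∘ m] ⊆ L_4`. -/
def Mid (m : R) : Prop := ∀ d s : R, br s (jd d m) ∈ lcs R 4

theorem Mid.br {m : R} (h : Mid m) (s : R) : br s m ∈ lcs R 4 := by
  apply half_mem
  have := h 1 s
  rwa [show jd 1 m = m + m by simp [jd], br_add_right] at this

theorem Mid.add {m m' : R} (h : Mid m) (h' : Mid m') : Mid (m + m') := by
  intro d s
  rw [jd_add_right, br_add_right]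
  exact Submodule.add_mem _ (h d s) (h' d s)

theorem Mid.smul {m : R} (h : Mid m) (c : ℂ) : Mid (c • m) := by
  intro d s
  rw [jd_smul_right, br_smul_right]
  exact Submodule.smul_mem _ _ (h d s)

theorem Mid.neg {m : R} (h : Mid m) : Mid (-m) := by
  have := h.smul (-1)
  simpa using this

theorem mid_of_three {l : R} (hl : l ∈ lcs R 3) : Mid l := fun d s => key hl s d

theorem mid_jd {l : R} (hl : l ∈ lcs R 3) (v : R) : Mid (jd v l) := by
  intro d s
  have h : jd d (jd v l) = jd (jd d v) l + br (br d l) v := by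
    simp only [br, jd]; noncomm_ring
  rw [h, br_add_right]
  refine Submodule.add_mem _ (key hl s _) ?_
  have h1 : br d l ∈ lcs R 3 := lcs_succ_le 3 (br_mem (by norm_num) d hl)
  have h2 : br (br d l) v ∈ lcs R 3 := lcs_succ_le 3 (br_mem' (by norm_num) v h1)
  exact br_mem (by norm_num) s h2

theorem mid_half {m : R} (h : Mid (m + m)) : Mid m := by
  intro d s
  apply half_mem
  rw [← br_add_right, ← jd_add_right]
  exact h d s

/-- `[L_2, M] ⊆ L_5`. -/
theorem K2 {m : R} (h : ∀ s : R, br s m ∈ lcs R 4) (s t : R) : br (br s t) m ∈ lcs R 5 := by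
  have e : br (br s t) m = br s (br t m) - br t (br s m) := by
    simp only [br]; noncomm_ring
  rw [e]
  exact Submodule.sub_mem _ (br_mem (by norm_num) _ (h t)) (br_mem (by norm_num) _ (h s))

/-- `[u, [u,v] ∘ m] ∈ L_5`. -/
theorem K1 {m : R} (h : Mid m) (u v : R) : br u (jd (br u v) m) ∈ lcs R 5 := by
  have e : br u (jd (br u v) m) =
      br u (br u (jd v m)) - br (jd u v) (br u m) + br v (br (u * u) m) := by
    simp only [br, jd]; noncomm_ring
  rw [e]
  exact Submodule.add_mem _ (Submodule.sub_mem _ (br_mem (by norm_num) _ (h v u))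
    (br_mem (by norm_num) _ (h.br u))) (br_mem (by norm_num) _ (h.br (u * u)))

/-- The polarised form of `K1`. -/
theorem K1' {m : R} (h : Mid m) (u u' v : R) :
    br u (jd (br u' v) m) + br u' (jd (br u v) m) ∈ lcs R 5 := by
  have e : br u (jd (br u' v) m) + br u' (jd (br u v) m) =
      br (u + u') (jd (br (u + u') v) m) - br u (jd (br u v) m) - br u' (jd (br u' v) m) := by
    simp only [br, jd]; noncomm_ring
  rw [e]
  exact Submodule.sub_mem _ (Submodule.sub_mem _ (K1 h _ _) (K1 h _ _)) (K1 h _ _)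

theorem mid_comm (u v w : R) : Mid (jd (br u v) (br u w)) := by
  apply mid_half
  have e : jd (br u v) (br u w) + jd (br u v) (br u w) =
      br u (br u (jd v w)) + (-(jd v (br u (br u w))) + -(jd w (br u (br u v)))) := by
    simp only [br, jd]; noncomm_ring
  rw [e]
  have h3 : ∀ p q r : R, br p (br q r) ∈ lcs R 3 := fun p q r =>
    br_mem (by norm_num) p (two_mem q r)
  exact (mid_of_three (h3 _ _ _)).add ((mid_jd (h3 _ _ _) _).neg.add (mid_jd (h3 _ _ _) _).neg)

theorem mid_sq (a b : R) : Mid (br a b * br a b) := by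
  apply mid_half
  have := mid_comm a b b
  rwa [show jd (br a b) (br a b) = br a b * br a b + br a b * br a b from rfl] at this

theorem le5 : lcs R 6 ≤ lcs R 5 := lcs_succ_le 5

/-- `[a, [x,y] ∘ [a,b]²] ∈ L_5`. -/
theorem E1 (a b x y : R) : br a (jd (br x y) (br a b * br a b)) ∈ lcs R 5 := by
  have h1 := K1' (mid_sq a b) a x y
  -- regroup `[a,y] ∘ c²`
  have e2 : br x (jd (br a y) (br a b * br a b)) + br x (jd (br a y) (br a b * br a b)) =
      br x (jd (br a b) (jd (br a y) (br a b))) - br x (br (br (br a b) (br a y)) (br a b)) := by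
    simp only [br, jd]; noncomm_ring
  have hm' : Mid (jd (br a y) (br a b)) := mid_comm a y b
  have h3 := K1' hm' x a b
  have e4 : br a (jd (br x b) (jd (br a y) (br a b))) =
      br a (jd (br a y) (jd (br x b) (br a b)))
        + br a (br (br (br x b) (br a y)) (br a b)) := by
    simp only [br, jd]; noncomm_ring
  have hm'' : Mid (jd (br x b) (br a b)) := by
    have := mid_comm b x a
    rwa [show jd (br b x) (br b a) = jd (br x b) (br a b) by simp only [br, jd]; noncomm_ring]
      at this
  have h5 := K1 hm'' a y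
  have h42 : ∀ p q r s : R, br (br p q) (br r s) ∈ lcs R 4 := fun p q r s =>
    br2_mem (by norm_num) p q (two_mem r s)
  have hc1 : br x (br (br (br a b) (br a y)) (br a b)) ∈ lcs R 5 :=
    le5 (br_mem (by norm_num) _ (br_mem' (by norm_num) _ (h42 _ _ _ _)))
  have hc2 : br a (br (br (br x b) (br a y)) (br a b)) ∈ lcs R 5 :=
    le5 (br_mem (by norm_num) _ (br_mem' (by norm_num) _ (h42 _ _ _ _)))
  have h4 : br a (jd (br x b) (jd (br a y) (br a b))) ∈ lcs R 5 := by
    rw [e4]; exact Submodule.add_mem _ h5 hc2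
  have h3' : br x (jd (br a b) (jd (br a y) (br a b))) ∈ lcs R 5 := by
    have := Submodule.sub_mem _ h3 h4
    rwa [add_sub_cancel_right] at this
  have h2 : br x (jd (br a y) (br a b * br a b)) ∈ lcs R 5 := by
    apply half_mem
    rw [e2]
    exact Submodule.sub_mem _ h3' hc1
  have := Submodule.sub_mem _ h1 h2
  rwa [add_sub_cancel_right] at this

/-- `[[a,b]², [x,y] ∘ a] ∈ L_5`. -/
theorem E2 (a b x y : R) : br (br a b * br a b) (jd (br x y) a) ∈ lcs R 5 := by
  have e : br (br a b * br a b) (jd (br x y) a) =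
      - br a (jd (br x y) (br a b * br a b)) - br (br x y) (jd a (br a b * br a b)) := by
    simp only [br, jd]; noncomm_ring
  rw [e]
  exact Submodule.sub_mem _ (Submodule.neg_mem _ (E1 a b x y)) (K2 (fun s => mid_sq a b a s) x y)

/-- The value of the derivation `u ↦ z u` (on letters) at `[a, [a,b]²]`. -/
theorem D_id (z a b : R) :
    (br (z * a) (br a b * br a b) + br a ((br (z * a) b + br a (z * b)) * br a b
        + br a b * (br (z * a) b + br a (z * b)))) +
    (br (z * a) (br a b * br a b) + br a ((br (z * a) b + br a (z * b)) * br a b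
        + br a b * (br (z * a) b + br a (z * b)))) =
      - br (br a b * br a b) (jd z a) + br (br z a) (br a b * br a b)
      + (br a (jd z (br a b * br a b)) + br a (jd z (br a b * br a b))
        + br a (jd z (br a b * br a b)) + br a (jd z (br a b * br a b)))
      + (br a (br (br (br a b) z) (br a b)) + br a (br (br (br a b) z) (br a b)))
      + br a (br z (br a b * br a b))
      + br a (jd (br a b) (jd (br z b) a)) - br a (jd (br a b) (jd (br z a) b)) := by
  simp only [br, jd]
  noncomm_ring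

theorem D_mem (a b x y : R) :
    br (br x y * a) (br a b * br a b) +
      br a ((br (br x y * a) b + br a (br x y * b)) * br a b
        + br a b * (br (br x y * a) b + br a (br x y * b))) ∈ lcs R 5 := by
  apply half_mem
  rw [D_id]
  have hE1 := E1 a b x y
  have hE2 := E2 a b x y
  have hM := mid_sq a b
  have h42 : ∀ p q r s : R, br (br p q) (br r s) ∈ lcs R 4 := fun p q r s =>
    br2_mem (by norm_num) p q (two_mem r s)
  have h3 : ∀ p : R, br (br x y) p ∈ lcs R 3 := fun p => br_mem' (by norm_num) p (two_mem x y)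
  refine Submodule.sub_mem _ (Submodule.add_mem _ (Submodule.add_mem _ (Submodule.add_mem _
    (Submodule.add_mem _ (Submodule.add_mem _ (Submodule.neg_mem _ hE2) ?_) ?_) ?_) ?_) ?_) ?_
  · exact K2 (fun s => hM.br s) _ _
  · exact Submodule.add_mem _ (Submodule.add_mem _ (Submodule.add_mem _ hE1 hE1) hE1) hE1
  · have : br a (br (br (br a b) (br x y)) (br a b)) ∈ lcs R 5 :=
      le5 (br_mem (by norm_num) _ (br_mem' (by norm_num) _ (h42 _ _ _ _)))
    exact Submodule.add_mem _ this this
  · exact br_mem (by norm_num) _ (hM.br _)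
  · refine K1 ?_ a b
    have := mid_jd (h3 b) a
    rwa [show jd a (br (br x y) b) = jd (br (br x y) b) a by simp only [jd]; abel] at this
  · refine K1 ?_ a b
    have := mid_jd (h3 a) b
    rwa [show jd b (br (br x y) a) = jd (br (br x y) a) b by simp only [jd]; abel] at this

end General

/-- The free associative algebra on `m` generators over `ℂ`. -/
def A (m : ℕ) : Type := FreeAlgebra ℂ (Fin m)

/-- The ring structure of the free algebra. -/
noncomputable instance instRingA (m : ℕ) : Ring (A m) :=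
  inferInstanceAs (Ring (FreeAlgebra ℂ (Fin m)))

/-- The algebra structure of the free algebra. -/
noncomputable instance instAlgebraA (m : ℕ) : Algebra ℂ (A m) :=
  inferInstanceAs (Algebra ℂ (FreeAlgebra ℂ (Fin m)))

/-- The generators. -/
def gen {m : ℕ} (i : Fin m) : A m := FreeAlgebra.ι ℂ i

theorem hom_ext' {m : ℕ} {S : Type*} [Semiring S] [Algebra ℂ S] {f g : A m →ₐ[ℂ] S}
    (h : ∀ i, f (gen i) = g (gen i)) : f = g := by
  have h' : ∀ x : FreeAlgebra ℂ (Fin m), f x = g x := by
    intro x
    induction x using FreeAlgebra.induction with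
    | grade0 r => exact (AlgHom.commutes f r).trans (AlgHom.commutes g r).symm
    | grade1 i => exact h i
    | mul a b ha hb =>
      have e1 : f (a * b) = f a * f b := map_mul f (a : A m) (b : A m)
      have e2 : g (a * b) = g a * g b := map_mul g (a : A m) (b : A m)
      rw [e1, e2, ha, hb]
    | add a b ha hb =>
      have e1 : f (a + b) = f a + f b := map_add f (a : A m) (b : A m)
      have e2 : g (a + b) = g a + g b := map_add g (a : A m) (b : A m)
      rw [e1, e2, ha, hb]
  exact AlgHom.ext h'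

/-- The algebra map determined by the images of the generators. -/
noncomputable def liftA {m : ℕ} {S : Type*} [Semiring S] [Algebra ℂ S] (v : Fin m → S) :
    A m →ₐ[ℂ] S := FreeAlgebra.lift ℂ v

theorem liftA_gen {m : ℕ} {S : Type*} [Semiring S] [Algebra ℂ S] (v : Fin m → S) (i : Fin m) :
    liftA v (gen i) = v i := FreeAlgebra.lift_ι_apply v i

/-- The monomial attached to a word. -/
noncomputable def word {m : ℕ} (l : List (Fin m)) : A m := (l.map gen).prod

/-- The homogeneous component of multidegree `p` of `A m`: the span of the words in which the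
letter `i` occurs `p i` times. -/
noncomputable def comp {m : ℕ} (p : Fin m → ℕ) : Submodule ℂ (A m) :=
  Submodule.span ℂ {w | ∃ l : List (Fin m), (∀ i, l.count i = p i) ∧ w = word l}

/-- The element `[x_{n+1}, x_{n+2}]` of `A (n+2)`. -/
noncomputable def zz (n : ℕ) : A (n + 2) := br (gen (Fin.castSucc (Fin.last n))) (gen (Fin.last (n + 1)))

/-- `δ` is the derivation of `A (n+2)` with `δ(x_i) = [x_{n+1}, x_{n+2}] x_i`. -/
def IsEuler (n : ℕ) (δ : A (n + 2) →ₗ[ℂ] A (n + 2)) : Prop :=
  (∀ x y : A (n + 2), δ (x * y) = δ x * y + x * δ y) ∧ ∀ i : Fin (n + 2), δ (gen i) = zz n * gen i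

/-- Auxiliary algebra map to the dual-number type extension, `x_i ↦ x_i + ε [x_{n+1},x_{n+2}] x_i`. -/
noncomputable def deltaHom (n : ℕ) : A (n + 2) →ₐ[ℂ] TrivSqZeroExt (A (n + 2)) (A (n + 2)) :=
  liftA (fun i => TrivSqZeroExt.inl (gen i) + TrivSqZeroExt.inr (zz n * gen i))

theorem fst_deltaHom (n : ℕ) (x : A (n + 2)) : (deltaHom n x).fst = x := by
  have h : (TrivSqZeroExt.fstHom ℂ (A (n + 2)) (A (n + 2))).comp (deltaHom n) = AlgHom.id ℂ _ := by
    apply hom_ext'
    intro i
    simp [deltaHom, liftA_gen]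
  exact DFunLike.congr_fun h x

/-- The derivation `δ` of `A (n+2)` with `δ(x_i) = [x_{n+1}, x_{n+2}] x_i`. -/
noncomputable def delta (n : ℕ) : A (n + 2) →ₗ[ℂ] A (n + 2) where
  toFun x := (deltaHom n x).snd
  map_add' x y := by simp
  map_smul' c x := by simp

theorem delta_mul (n : ℕ) (x y : A (n + 2)) :
    delta n (x * y) = delta n x * y + x * delta n y := by
  change (deltaHom n (x * y)).snd = (deltaHom n x).snd * y + x * (deltaHom n y).snd
  rw [map_mul, TrivSqZeroExt.snd_mul, fst_deltaHom, fst_deltaHom]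
  simp [add_comm]

theorem delta_gen (n : ℕ) (i : Fin (n + 2)) : delta n (gen i) = zz n * gen i := by
  change (deltaHom n (gen i)).snd = _
  simp [deltaHom, liftA_gen]

theorem delta_br {n : ℕ} {δ : A (n + 2) →ₗ[ℂ] A (n + 2)} (hδ : IsEuler n δ) (x y : A (n + 2)) :
    δ (br x y) = br (δ x) y + br x (δ y) := by
  simp only [br, map_sub, hδ.1]; abel

theorem delta_lcs {n : ℕ} {δ : A (n + 2) →ₗ[ℂ] A (n + 2)} (hδ : IsEuler n δ) (k : ℕ) :
    ∀ l ∈ lcs (A (n + 2)) k, δ l ∈ lcs (A (n + 2)) k := by
  induction k with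
  | zero => intro l _; exact Submodule.mem_top
  | succ k ih =>
    rcases k with _ | k
    · intro l _; exact Submodule.mem_top
    · intro l hl
      change l ∈ Submodule.span ℂ {z | ∃ a : A (n + 2), ∃ l ∈ lcs (A (n + 2)) (k + 1), z = br a l}
        at hl
      induction hl using Submodule.span_induction with
      | mem x hx =>
        obtain ⟨a, l, hl, rfl⟩ := hx
        rw [delta_br hδ]
        exact Submodule.add_mem _ (br_mem (by omega) _ hl) (br_mem (by omega) _ (ih l hl))
      | zero => rw [map_zero]; exact Submodule.zero_mem _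
      | add x y _ _ hx hy => rw [map_add]; exact Submodule.add_mem _ hx hy
      | smul c x _ hx => rw [map_smul]; exact Submodule.smul_mem _ _ hx

/-! ### The letters and the element `w = [a,[a,b]²]` -/

/-- The letters `a = x₁`, `b = x₂`, `x = x₃`, `y = x₄` of `A 4`. -/
noncomputable def la : A 4 := gen 0
noncomputable def lb : A 4 := gen 1
noncomputable def lx : A 4 := gen 2
noncomputable def ly : A 4 := gen 3

/-- The element `[a,[a,b]²]`. -/
noncomputable def w : A 4 := br la (br la lb * br la lb)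

theorem w_mem : w ∈ lcs (A 4) 4 := (mid_sq la lb).br la

theorem zz_two : zz 2 = br lx ly := rfl

theorem delta_w {δ : A 4 →ₗ[ℂ] A 4} (hδ : IsEuler 2 δ) : δ w ∈ lcs (A 4) 5 := by
  have ha : δ la = br lx ly * la := hδ.2 0
  have hb : δ lb = br lx ly * lb := hδ.2 1
  have h : δ w = br (br lx ly * la) (br la lb * br la lb) +
      br la ((br (br lx ly * la) lb + br la (br lx ly * lb)) * br la lb
        + br la lb * (br (br lx ly * la) lb + br la (br lx ly * lb))) := by
    rw [w, delta_br hδ, hδ.1, delta_br hδ, ha, hb]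
  rw [h]
  exact D_mem la lb lx ly

theorem word_cons {m : ℕ} (i : Fin m) (l : List (Fin m)) : word (i :: l) = gen i * word l := by
  simp [word]

theorem word_append {m : ℕ} (l l' : List (Fin m)) : word (l ++ l') = word l * word l' := by
  simp [word]

theorem w_expand : w = word [0,0,1,0,1] - word [0,0,1,1,0] - word [0,1,0,0,1] + word [0,1,1,0,0]
    + word [1,0,0,1,0] - word [1,0,1,0,0] := by
  simp only [word, w, br, la, lb, List.map_cons, List.map_nil, List.prod_cons, List.prod_nil]
  noncomm_ring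

theorem w_comp : w ∈ comp (m := 4) ![3, 2, 0, 0] := by
  rw [w_expand]
  have h : ∀ l : List (Fin 4), (∀ i, l.count i = (![3, 2, 0, 0] : Fin 4 → ℕ) i) →
      word l ∈ comp (m := 4) ![3, 2, 0, 0] := fun l hl => Submodule.subset_span ⟨l, hl, rfl⟩
  refine Submodule.sub_mem _ (Submodule.add_mem _ (Submodule.add_mem _ (Submodule.sub_mem _
    (Submodule.sub_mem _ (h _ ?_) (h _ ?_)) (h _ ?_)) (h _ ?_)) (h _ ?_)) (h _ ?_) <;> decide

/-! ### `w` is not in `L_5` -/

theorem of_eq_prod (l : List (Fin 4)) :
    MonoidAlgebra.of ℂ (FreeMonoid (Fin 4)) (FreeMonoid.ofList l) =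
      FreeAlgebra.equivMonoidAlgebraFreeMonoid ((l.map (FreeAlgebra.ι ℂ)).prod) := by
  induction l with
  | nil => simp; rfl
  | cons i l ih =>
    rw [List.map_cons, List.prod_cons, map_mul, FreeMonoid.ofList_cons, map_mul, ih]
    congr 1
    simp [FreeAlgebra.equivMonoidAlgebraFreeMonoid]

theorem basis_eq_prod (l : List (Fin 4)) :
    FreeAlgebra.basisFreeMonoid ℂ (Fin 4) (FreeMonoid.ofList l) =
      (l.map (FreeAlgebra.ι ℂ)).prod := by
  have h : FreeAlgebra.basisFreeMonoid ℂ (Fin 4) (FreeMonoid.ofList l) =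
      FreeAlgebra.equivMonoidAlgebraFreeMonoid.symm
        (MonoidAlgebra.of ℂ (FreeMonoid (Fin 4)) (FreeMonoid.ofList l)) := by
    simp [FreeAlgebra.basisFreeMonoid]
  rw [h, AlgEquiv.symm_apply_eq]
  exact of_eq_prod l

/-- The basis of words of `A 4`. -/
noncomputable def basisA : Module.Basis (FreeMonoid (Fin 4)) ℂ (A 4) :=
  FreeAlgebra.basisFreeMonoid ℂ (Fin 4)

theorem basisA_eq_word (l : List (Fin 4)) : basisA (FreeMonoid.ofList l) = word l :=
  basis_eq_prod l

/-- The linear functional on `A 4` with prescribed integer values on the words. -/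
noncomputable def fn (g : List (Fin 4) → ℤ) : A 4 →ₗ[ℂ] ℂ :=
  basisA.constr ℂ (fun l => ((g l.toList : ℤ) : ℂ))

theorem fn_word (g : List (Fin 4) → ℤ) (l : List (Fin 4)) : fn g (word l) = (g l : ℂ) := by
  rw [← basisA_eq_word, fn, Module.Basis.constr_basis]
  rfl

theorem span_word : (⊤ : Submodule ℂ (A 4)) ≤ Submodule.span ℂ (Set.range word) := by
  rw [← basisA.span_eq]
  apply Submodule.span_mono
  rintro _ ⟨l, rfl⟩
  exact ⟨l.toList, (basisA_eq_word l.toList).symm⟩

theorem lin_ext {f₁ f₂ : A 4 →ₗ[ℂ] ℂ} (h : ∀ l, f₁ (word l) = f₂ (word l)) (x : A 4) :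
    f₁ x = f₂ x := by
  have hx : x ∈ Submodule.span ℂ (Set.range word) := span_word Submodule.mem_top
  induction hx using Submodule.span_induction with
  | mem y hy => obtain ⟨l, rfl⟩ := hy; exact h l
  | zero => rw [map_zero, map_zero]
  | add y z _ _ hy hz => rw [map_add, map_add, hy, hz]
  | smul c y _ hy => rw [map_smul, map_smul, hy]

theorem fn_mul_left (g : List (Fin 4) → ℤ) (i : Fin 4) (x : A 4) :
    fn g (gen i * x) = fn (fun l => g (i :: l)) x := by
  have := lin_ext (f₁ := (fn g).comp (LinearMap.mulLeft ℂ (gen i)))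
    (f₂ := fn (fun l => g (i :: l))) (fun l => by
      simp only [LinearMap.comp_apply, LinearMap.mulLeft_apply]
      rw [← word_cons, fn_word, fn_word]) x
  simpa using this

theorem word_snoc (i : Fin 4) (l : List (Fin 4)) : word (l ++ [i]) = word l * gen i := by
  simp [word]

theorem fn_mul_right (g : List (Fin 4) → ℤ) (i : Fin 4) (x : A 4) :
    fn g (x * gen i) = fn (fun l => g (l ++ [i])) x := by
  have := lin_ext (f₁ := (fn g).comp (LinearMap.mulRight ℂ (gen i)))
    (f₂ := fn (fun l => g (l ++ [i]))) (fun l => by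
      simp only [LinearMap.comp_apply, LinearMap.mulRight_apply]
      rw [← word_snoc, fn_word, fn_word]) x
  simpa using this

/-- Right-nested commutators of letters. -/
noncomputable def nest : List (Fin 4) → A 4
  | [] => 0
  | [i] => gen i
  | (i :: j :: l) => br (gen i) (nest (j :: l))

/-- Evaluation of a functional on a nested commutator. -/
def evN : List (Fin 4) → (List (Fin 4) → ℤ) → ℤ
  | [], _ => 0
  | [i], g => g [i]
  | (i :: j :: l), g => evN (j :: l) (fun t => g (i :: t)) - evN (j :: l) (fun t => g (t ++ [i]))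

theorem fn_nest (t : List (Fin 4)) : ∀ g, fn g (nest t) = (evN t g : ℂ) := by
  induction t with
  | nil => intro g; simp [nest, evN]
  | cons i t ih =>
    intro g
    rcases t with _ | ⟨j, l⟩
    · have : (gen i : A 4) = word [i] := by simp [word]
      simp only [nest, evN, this, fn_word]
    · simp only [nest, evN, br, map_sub, fn_mul_left, fn_mul_right, Int.cast_sub, ih]

/-- Multiplicity of the word `w` in the shuffle product of `u` and `v`. -/
def sh : List (Fin 4) → List (Fin 4) → List (Fin 4) → ℤ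
  | u, v, [] => if u = [] ∧ v = [] then 1 else 0
  | u, v, (c :: w) => (match u with
      | [] => 0
      | (c' :: u') => if c = c' then sh u' v w else 0) + (match v with
      | [] => 0
      | (c' :: v') => if c = c' then sh u v' w else 0)

theorem sh_eq_zero (w : List (Fin 4)) : ∀ u v : List (Fin 4), w.length ≠ u.length + v.length →
    sh u v w = 0 := by
  induction w with
  | nil =>
    intro u v h
    simp only [sh]
    rw [if_neg]
    rintro ⟨rfl, rfl⟩
    exact h rfl
  | cons c w ih =>
    intro u v h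
    simp only [sh]
    rcases u with _ | ⟨c₁, u⟩ <;> rcases v with _ | ⟨c₂, v⟩ <;> simp only [zero_add, add_zero]
    · split_ifs
      · apply ih; simp only [List.length_cons, List.length_nil] at h ⊢; omega
      · rfl
    · split_ifs
      · apply ih; simp only [List.length_cons, List.length_nil] at h ⊢; omega
      · rfl
    · rw [ih u (c₂ :: v), ih (c₁ :: u) v]
      · simp
      · simp only [List.length_cons] at h ⊢; omega
      · simp only [List.length_cons] at h ⊢; omega

/-- The functional given by the coefficients of the shuffle `ab ⧢ aab`. -/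
noncomputable def f : A 4 →ₗ[ℂ] ℂ := fn (sh [0, 1] [0, 0, 1])

theorem f_nest : ∀ t : List (Fin 4), t.length = 5 → f (nest t) = 0 := by
  have h : ∀ a b c d e : Fin 4, evN [a, b, c, d, e] (sh [0, 1] [0, 0, 1]) = 0 := by
    decide +kernel
  intro t ht
  rcases t with _ | ⟨a, _ | ⟨b, _ | ⟨c, _ | ⟨d, _ | ⟨e, _ | ⟨_, _⟩⟩⟩⟩⟩⟩ <;> simp at ht
  rw [f, fn_nest, h]
  simp

theorem f_long (t : List (Fin 4)) (ht : 6 ≤ t.length) : f (word t) = 0 := by
  rw [f, fn_word, sh_eq_zero]
  · simp
  · simp only [List.length_cons, List.length_nil]; omega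

theorem f_w : f w = 2 := by
  rw [w_expand]
  simp only [map_sub, map_add, f, fn_word]
  have h1 : sh [0, 1] [0, 0, 1] [0, 0, 1, 0, 1] = 3 := by decide
  have h2 : sh [0, 1] [0, 0, 1] [0, 0, 1, 1, 0] = 0 := by decide
  have h3 : sh [0, 1] [0, 0, 1] [0, 1, 0, 0, 1] = 1 := by decide
  have h4 : sh [0, 1] [0, 0, 1] [0, 1, 1, 0, 0] = 0 := by decide
  have h5 : sh [0, 1] [0, 0, 1] [1, 0, 0, 1, 0] = 0 := by decide
  have h6 : sh [0, 1] [0, 0, 1] [1, 0, 1, 0, 0] = 0 := by decide
  rw [h1, h2, h3, h4, h5, h6]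
  norm_num

/-- Span of the words of length at least `k`. -/
noncomputable def F (k : ℕ) : Submodule ℂ (A 4) :=
  Submodule.span ℂ {x | ∃ l : List (Fin 4), k ≤ l.length ∧ x = word l}

/-- Span of the nested commutators of `k` letters. -/
noncomputable def N (k : ℕ) : Submodule ℂ (A 4) :=
  Submodule.span ℂ {x | ∃ l : List (Fin 4), l.length = k ∧ x = nest l}

theorem word_mem_F {k : ℕ} {l : List (Fin 4)} (h : k ≤ l.length) : word l ∈ F k :=
  Submodule.subset_span ⟨l, h, rfl⟩

theorem F_mono {j k : ℕ} (h : j ≤ k) : F k ≤ F j := by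
  apply Submodule.span_mono
  rintro _ ⟨l, hl, rfl⟩
  exact ⟨l, h.trans hl, rfl⟩

theorem br_word_F {j k : ℕ} {u : List (Fin 4)} (hu : j ≤ u.length) {x : A 4} (hx : x ∈ F k) :
    br (word u) x ∈ F (j + k) := by
  induction hx using Submodule.span_induction with
  | mem y hy =>
    obtain ⟨l, hl, rfl⟩ := hy
    rw [br, ← word_append, ← word_append]
    refine Submodule.sub_mem _ (word_mem_F ?_) (word_mem_F ?_) <;>
      simp only [List.length_append] <;> omega
  | zero => simp [br]
  | add y z _ _ hy hz => rw [br_add_right]; exact Submodule.add_mem _ hy hz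
  | smul c y _ hy => rw [br_smul_right]; exact Submodule.smul_mem _ _ hy

theorem gen_eq_word (i : Fin 4) : (gen i : A 4) = word [i] := by simp [word]

theorem nest_mem_F (t : List (Fin 4)) : nest t ∈ F t.length := by
  induction t with
  | nil => exact Submodule.zero_mem _
  | cons i t ih =>
    rcases t with _ | ⟨j, l⟩
    · rw [nest, gen_eq_word]; exact word_mem_F le_rfl
    · rw [nest, gen_eq_word]
      have := br_word_F (j := 1) (u := [i]) le_rfl ih
      rwa [add_comm] at this

theorem N_le_F (k : ℕ) : N k ≤ F k := by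
  apply Submodule.span_le.2
  rintro _ ⟨l, rfl, rfl⟩
  exact nest_mem_F l

theorem br_add_left {R : Type*} [Ring R] (x y z : R) : br (x + y) z = br x z + br y z := by
  simp only [br]; noncomm_ring

theorem br_smul_left {R : Type*} [Ring R] [Algebra ℂ R] (c : ℂ) (x y : R) :
    br (c • x) y = c • br x y := by
  simp only [br, mul_smul_comm, smul_mul_assoc, smul_sub]

theorem step_word {k : ℕ} (hk : 1 ≤ k) (u : List (Fin 4)) {x : A 4} (hx : x ∈ N k ⊔ F (k + 1)) :
    br (word u) x ∈ N (k + 1) ⊔ F (k + 2) := by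
  obtain ⟨y, hy, z, hz, rfl⟩ := Submodule.mem_sup.1 hx
  clear hx
  rcases u with _ | ⟨i, u⟩
  · have : (word [] : A 4) = 1 := by simp [word]
    rw [this, show br (1 : A 4) (y + z) = 0 by simp [br]]
    exact Submodule.zero_mem _
  · rw [br_add_right]
    refine Submodule.add_mem _ ?_ ?_
    · rcases u with _ | ⟨i', u⟩
      · apply Submodule.mem_sup_left
        rw [← gen_eq_word]
        induction hy using Submodule.span_induction with
        | mem y hy =>
          obtain ⟨l, hl, rfl⟩ := hy
          rcases l with _ | ⟨j, l⟩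
          · simp at hl; omega
          · exact Submodule.subset_span ⟨i :: j :: l, by simpa using hl, rfl⟩
        | zero => rw [show br (gen i : A 4) 0 = 0 by simp [br]]; exact Submodule.zero_mem _
        | add y z _ _ hy hz =>
          rw [br_add_right]
          exact Submodule.add_mem _ hy hz
        | smul c y _ hy => rw [br_smul_right]; exact Submodule.smul_mem _ _ hy
      · apply Submodule.mem_sup_right
        have := br_word_F (j := 2) (u := i :: i' :: u) (by simp) (N_le_F k hy)
        rwa [add_comm] at this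
    · apply Submodule.mem_sup_right
      have := br_word_F (j := 1) (u := i :: u) (by simp) hz
      rwa [show 1 + (k + 1) = k + 2 by omega] at this

theorem step {k : ℕ} (hk : 1 ≤ k) (a : A 4) {x : A 4} (hx : x ∈ N k ⊔ F (k + 1)) :
    br a x ∈ N (k + 1) ⊔ F (k + 2) := by
  have ha : a ∈ Submodule.span ℂ (Set.range (word (m := 4))) := span_word Submodule.mem_top
  induction ha using Submodule.span_induction with
  | mem y hy => obtain ⟨u, rfl⟩ := hy; exact step_word hk u hx
  | zero => rw [show br (0 : A 4) x = 0 by simp [br]]; exact Submodule.zero_mem _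
  | add y z _ _ hy hz => rw [br_add_left]; exact Submodule.add_mem _ hy hz
  | smul c y _ hy => rw [br_smul_left]; exact Submodule.smul_mem _ _ hy

theorem const_or (x : A 4) : ∃ c : ℂ, x - c • (1 : A 4) ∈ N 1 ⊔ F 2 := by
  have hx : x ∈ Submodule.span ℂ (Set.range (word (m := 4))) := span_word Submodule.mem_top
  induction hx using Submodule.span_induction with
  | mem y hy =>
    obtain ⟨u, rfl⟩ := hy
    rcases u with _ | ⟨i, _ | ⟨j, u⟩⟩
    · refine ⟨1, ?_⟩
      rw [show (word [] : A 4) - (1 : ℂ) • (1 : A 4) = 0 by simp [word]]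
      exact Submodule.zero_mem _
    · refine ⟨0, ?_⟩
      rw [zero_smul, sub_zero]
      exact Submodule.mem_sup_left (Submodule.subset_span ⟨[i], rfl, (gen_eq_word i).symm⟩)
    · refine ⟨0, ?_⟩
      rw [zero_smul, sub_zero]
      exact Submodule.mem_sup_right (word_mem_F (by simp))
  | zero => exact ⟨0, by simp⟩
  | add y z _ _ hy hz =>
    obtain ⟨c, hc⟩ := hy
    obtain ⟨d, hd⟩ := hz
    refine ⟨c + d, ?_⟩
    rw [show y + z - (c + d) • (1 : A 4) = (y - c • 1) + (z - d • 1) by rw [add_smul]; abel]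
    exact Submodule.add_mem _ hc hd
  | smul e y _ hy =>
    obtain ⟨c, hc⟩ := hy
    refine ⟨e * c, ?_⟩
    rw [show e • y - (e * c) • (1 : A 4) = e • (y - c • 1) by rw [smul_sub, smul_smul]]
    exact Submodule.smul_mem _ _ hc

theorem lcs_le (k : ℕ) : lcs (A 4) (k + 2) ≤ N (k + 2) ⊔ F (k + 3) := by
  induction k with
  | zero =>
    apply Submodule.span_le.2
    rintro _ ⟨a, l, -, rfl⟩
    obtain ⟨c, hc⟩ := const_or l
    have h := step le_rfl a hc
    have e : br a (l - c • (1 : A 4)) = br a l := by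
      simp [br, mul_sub, sub_mul]
    rw [e] at h
    exact h
  | succ k ih =>
    apply Submodule.span_le.2
    rintro _ ⟨a, l, hl, rfl⟩
    exact step (by omega) a (ih hl)

theorem f_lcs {x : A 4} (hx : x ∈ lcs (A 4) 5) : f x = 0 := by
  have h : N 5 ⊔ F 6 ≤ LinearMap.ker f := by
    apply sup_le
    · apply Submodule.span_le.2
      rintro _ ⟨l, hl, rfl⟩
      exact f_nest l hl
    · apply Submodule.span_le.2
      rintro _ ⟨l, hl, rfl⟩
      exact f_long l hl
  exact h (lcs_le 3 hx)

theorem w_not_mem : w ∉ lcs (A 4) 5 := by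
  intro h
  have := f_lcs h
  rw [f_w] at this
  norm_num at this

/-- The multidegree `(d₁,…,d_n,0,0)`. -/
def ext {n : ℕ} (d : Fin n → ℕ) : Fin (n + 2) → ℕ := Fin.snoc (Fin.snoc d 0 : Fin (n + 1) → ℕ) 0

theorem ext_two : ext ![3, 2] = ![3, 2, 0, 0] := by
  decide

/-- The map `D` induced by `δ` is injective on `B_k(A_{n+2})[d₁,…,d_n,0,0]`: if `l ∈ L_k` is
homogeneous of multidegree `(d₁,…,d_n,0,0)` and `δ(l) ∈ L_{k+1}` then `l ∈ L_{k+1}`. -/
def InjectiveAt (n : ℕ) (δ : A (n + 2) →ₗ[ℂ] A (n + 2)) (k : ℕ) (d : Fin n → ℕ) : Prop :=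
  ∀ l : A (n + 2), l ∈ lcs (A (n + 2)) k → l ∈ comp (ext d) →
    δ l ∈ lcs (A (n + 2)) (k + 1) → l ∈ lcs (A (n + 2)) (k + 1)

/-- **Main theorem.** There is a (unique) derivation `δ` of `A (n+2)` with
`x_i ↦ [x_{n+1}, x_{n+2}] x_i`, it preserves every `L_k`, and the map it induces on
`B_4(A_4)[3,2,0,0]` is not injective; consequently it is false that the induced map is injective on
`B_k(A_{n+2})[d₁,…,d_n,0,0]` for all `k ≥ 2`, `n ≥ 1` and all `d`. -/
theorem result :
    (∀ n : ℕ, ∃ δ : A (n + 2) →ₗ[ℂ] A (n + 2), IsEuler n δ ∧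
      ∀ k : ℕ, ∀ l ∈ lcs (A (n + 2)) k, δ l ∈ lcs (A (n + 2)) k) ∧
    (∀ δ : A 4 →ₗ[ℂ] A 4, IsEuler 2 δ → ¬ InjectiveAt 2 δ 4 ![3, 2]) ∧
    ¬ (∀ k ≥ 2, ∀ n ≥ 1, ∀ d : Fin n → ℕ, ∀ δ : A (n + 2) →ₗ[ℂ] A (n + 2), IsEuler n δ →
        InjectiveAt n δ k d) := by
  have h2 : ∀ δ : A 4 →ₗ[ℂ] A 4, IsEuler 2 δ → ¬ InjectiveAt 2 δ 4 ![3, 2] := by
    intro δ hδ h
    apply w_not_mem
    refine h w w_mem ?_ (delta_w hδ)
    rw [ext_two]
    exact w_comp
  refine ⟨fun n => ⟨delta n, ⟨delta_mul n, delta_gen n⟩,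
    delta_lcs ⟨delta_mul n, delta_gen n⟩⟩, h2, ?_⟩
  intro h
  exact h2 (delta 2) ⟨delta_mul 2, delta_gen 2⟩
    (h 4 (by norm_num) 2 (by norm_num) ![3, 2] (delta 2) ⟨delta_mul 2, delta_gen 2⟩)

end Pool.Agent.Results.MP_540755_al.NotInjective
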